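import Pool.Agent.W495.FM.Spread

/-!
# Cycle classes on open subvarieties of small abelian varieties

An abelian variety over the field with `p ^ a` elements is modelled by `RedAV` (Honda, Tate): a
finite product of CM types `(E i, Φ i)` with Weil numbers `π i ∈ E i` that satisfy the formula of
Shimura and Taniyama; its cohomology of degree `n` consists of the alternating `n`-forms on the Tate
module `Ω ⊗ H_1`, on which the Frobenius endomorphism acts by `π`.

`IsSmall Y`: the dimension of `Y` is at most four; or `Y` is (over an algebraic closure) isogenous to
the product of a power of a simple abelian variety of dimension at most five and of a supersingular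
abelian variety; or `Y` is a product of abelian varieties of dimension at most three, with a condition
on the Galois closures of their CM fields. The Newton polygon is arbitrary.

Let `X` be a variety in the class generated by these abelian varieties by motivic direct summands and
two-out-of-three (`Generated`), and `Z` a closed subvariety of `X` that belongs to the larger class
`Spread`: it contains the generated varieties and all varieties for which the cycle class maps are
known to be surjective with semisimple eigenvalue one (for example all varieties of dimension at most
one), and it is closed under open subvarieties, images under proper morphisms, unions of a closed and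
an open member, and motivic direct summands. Then for the variety `U = X ∖ Z` the cycle class maps
from `CH_i(U) ⊗ ℚ_ℓ` to the Galois invariants of `H_(2 i)(U, ℚ_ℓ(i))` are isomorphisms for all `i`, and
the eigenvalue one of the Frobenius is semisimple.

For example `U` can be the complement of any finite union of curves and of images of abelian
varieties of the above kind (of any smaller dimension) in an abelian fourfold.
-/

namespace Pool.Agent.Results.MP_3af9db_ag.ComplementsInSmallAbelian

open Pool.Agent.W495.TA Pool.Agent.W495.FM

/-- The cycle class maps are isomorphisms for `U = X ∖ Z`. -/
theorem result (p : ℕ) [Fact p.Prime] (ν : PadicAlgCl p ≃+* ℂ) (Ω : Type) [Field Ω]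
    [IsAlgClosed Ω] [CharZero Ω] (V : Type) (T : Homology Ω V) (hT : IsHomology T)
    (hW : HasWeights T) (Z X U : V) (h : IsTriple T Z X U)
    (hX : Generated T (IsSmallAbelian p ν T) X) (hZ : Spread T (IsKnown p ν T) Z) (i : ℤ) :
    IsIso T U i :=
  iso_open hT hW h hX hZ i

end Pool.Agent.Results.MP_3af9db_ag.ComplementsInSmallAbelian
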